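import Mathlib
import Pool.Agent.H79.JTDefs
import Pool.Agent.H79.JT2

set_option autoImplicit false

namespace Pool.Agent.Results.MP_728180_al.Never

open Pool.Agent.H79.JT IsLocalRing

/-- The Jordan type of an element of the maximal ideal of a finite-dimensional local algebra
never strictly dominates the contiguous partition of the Hilbert function. -/
theorem result (k A : Type) [Field k] [CommRing A] [Algebra k A] [IsLocalRing A]
    [Module.Finite k A] (l : A) (hl : l ∈ maximalIdeal A) (P : Multiset ℕ)
    (hP : IsJordanType (LinearMap.mulLeft k l) P) :
    ¬ (Dominates P (contigA k A) ∧ P ≠ contigA k A) :=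
  fun h => h.2 (main hl hP h.1.2).2

end Pool.Agent.Results.MP_728180_al.Never
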